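import Pool.Agent.AT10.Stmts2
import Pool.Agent.Helper45_ATZ.MMO

/-!
# Squad AT10, row BLO: the block may be omitted in one factor
-/

open scoped BigOperators

noncomputable section

namespace Pool.Agent.PP.T10.H1

open Pool.Agent.Helper51_AWC Pool.Agent.Helper79_WRA Pool.Agent.PP Pool.Agent.PP.KF
open Pool.Agent.PP.K9 Pool.Agent.PP.K9.H97 Pool.Agent.PP.H75 Pool.Agent.PP.T3 Pool.Agent.PP.T2
open Pool.Agent.PP.T5 Pool.Agent.PP.TB
open Pool.Agent.PP.T8 (rs pw fv rd Ip Rv)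

attribute [local instance] Ideal.Quotient.field

theorem blo (ker : T5.KerStmt) : BloStmt := by
  intro ℓ _ M _ hM G _ _ u w hw b hb χ hχ ψ hψ
  classical
  have := Fintype.ofFinite G
  obtain ⟨C, hC⟩ : ∃ C : Subgroup G, C = Cu u := ⟨_, rfl⟩
  rw [← hC] at hb ⊢
  have hn : (Nat.card C : ℂ) ≠ 0 := by exact_mod_cast Nat.card_pos.ne'
  rw [TB.H45.mm_eq, TB.H45.fsum_rg]
  congr 1
  have hk : ∀ φ ∈ Irr G, ∀ t ∈ TB.H45.rg ℓ C, gv M C (w * t) b φ = (Nat.card C : ℂ)⁻¹ *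
      ∑ c ∈ TB.H45.rg ℓ C, T5.kr M C b t c * φ (w * c) := by
    intro φ hφ t ht
    obtain ⟨htC, htr⟩ := TB.H45.mem_rg.1 ht
    rw [← TB.H45.fsum_rg, hC]
    rw [hC] at htC
    exact ker ℓ M hM G u w hw b (by rw [← hC]; exact hb) t htC htr φ hφ
  -- the kernel fixes `g`
  have hfix : ∀ c ∈ TB.H45.rg ℓ C, ∑ s ∈ TB.H45.rg ℓ C, T5.kr M C b c s * gv M C (w * s) b χ =
      (Nat.card C : ℂ) * gv M C (w * c) b χ := by
    intro c hc
    calc ∑ s ∈ TB.H45.rg ℓ C, T5.kr M C b c s * gv M C (w * s) b χ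
        = ∑ s ∈ TB.H45.rg ℓ C, ∑ d ∈ TB.H45.rg ℓ C,
            (Nat.card C : ℂ)⁻¹ * (χ (w * d) * (T5.kr M C b c s * T5.kr M C b s d)) := by
          refine Finset.sum_congr rfl fun s hs => ?_
          rw [hk χ hχ s hs, Finset.mul_sum, Finset.mul_sum]
          refine Finset.sum_congr rfl fun d _ => ?_
          ring
      _ = ∑ d ∈ TB.H45.rg ℓ C, (Nat.card C : ℂ)⁻¹ * (χ (w * d) *
            ((Nat.card C : ℂ) * T5.kr M C b c d)) := by
          rw [Finset.sum_comm]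
          refine Finset.sum_congr rfl fun d _ => ?_
          rw [← Finset.mul_sum, ← Finset.mul_sum, TB.H45.kr_idem hM hb hc]
      _ = (Nat.card C : ℂ) * gv M C (w * c) b χ := by
          rw [hk χ hχ c hc, Finset.mul_sum, Finset.mul_sum]
          refine Finset.sum_congr rfl fun d _ => ?_
          ring
  calc ∑ s ∈ TB.H45.rg ℓ C, gv M C (w * s) b χ * starRingEnd ℂ (ψ (w * s))
      = ∑ s ∈ TB.H45.rg ℓ C, (Nat.card C : ℂ)⁻¹ * (starRingEnd ℂ (ψ (w * s)) *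
          ∑ t ∈ TB.H45.rg ℓ C, T5.kr M C b s t * gv M C (w * t) b χ) := by
        refine Finset.sum_congr rfl fun s hs => ?_
        rw [hfix s hs]
        field_simp
    _ = ∑ s ∈ TB.H45.rg ℓ C, ∑ t ∈ TB.H45.rg ℓ C, (Nat.card C : ℂ)⁻¹ *
          (starRingEnd ℂ (ψ (w * s)) * (T5.kr M C b s t * gv M C (w * t) b χ)) := by
        refine Finset.sum_congr rfl fun s _ => ?_
        rw [Finset.mul_sum, Finset.mul_sum]
    _ = ∑ t ∈ TB.H45.rg ℓ C, gv M C (w * t) b χ * starRingEnd ℂ (gv M C (w * t) b ψ) := by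
        rw [Finset.sum_comm]
        refine Finset.sum_congr rfl fun t ht => ?_
        rw [hk ψ hψ t ht, map_mul, map_inv₀, map_natCast, map_sum, Finset.mul_sum, Finset.mul_sum]
        refine Finset.sum_congr rfl fun s _ => ?_
        rw [map_mul, TB.H45.kr_star]
        ring

end Pool.Agent.PP.T10.H1
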