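import Pool.Agent.AT10.Stmts2
import Pool.Agent.Helper62_AT3.LCJ

/-!
# Squad AT10, row SBE: the family `sb b`
-/

open scoped BigOperators

noncomputable section

namespace Pool.Agent.PP.T10.H1

open Pool.Agent.Helper51_AWC Pool.Agent.Helper79_WRA Pool.Agent.PP Pool.Agent.PP.KF
open Pool.Agent.PP.K9 Pool.Agent.PP.K9.H97 Pool.Agent.PP.H75 Pool.Agent.PP.T3 Pool.Agent.PP.T2
open Pool.Agent.PP.T5 Pool.Agent.PP.TB
open Pool.Agent.PP.T8 (rs pw fv rd Ip Rv)

attribute [local instance] Ideal.Quotient.field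

section sbe

variable {F G : Type} [Field F] [Group G] [Finite G]

omit [Finite G] in
theorem mem_cu {u x : G} : x ∈ Cu u ↔ x * u = u * x := Subgroup.mem_centralizer_singleton_iff

omit [Finite G] in
theorem mem_cu_conj {z u q : G} (h : q * z * q⁻¹ = u) (x : G) :
    x ∈ Cu u ↔ q⁻¹ * x * q ∈ Cu z := by
  rw [mem_cu, mem_cu, ← h]
  constructor
  · intro h1
    have h2 := congrArg (fun y => q⁻¹ * y * q) h1
    calc q⁻¹ * x * q * z = q⁻¹ * (x * (q * z * q⁻¹)) * q := by group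
      _ = q⁻¹ * (q * z * q⁻¹ * x) * q := h2
      _ = z * (q⁻¹ * x * q) := by group
  · intro h1
    have h2 := congrArg (fun y => q * y * q⁻¹) h1
    calc x * (q * z * q⁻¹) = q * (q⁻¹ * x * q * z) * q⁻¹ := by group
      _ = q * (z * (q⁻¹ * x * q)) * q⁻¹ := h2
      _ = q * z * q⁻¹ * x := by group

theorem sb_eq {b : G → G → F} {z u q : G} (hb : Ix (Cu z) (b z)) (h : q * z * q⁻¹ = u) :
    sb b z u = cj q (b z) := by
  have hex : ∃ q : G, q * z * q⁻¹ = u := ⟨q, h⟩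
  have h1 : sb b z u = cj hex.choose (b z) := by
    unfold sb
    rw [dif_pos hex]
    rfl
  rw [h1]
  have h2 := hex.choose_spec
  generalize hex.choose = r at h2 ⊢
  have h3 : q⁻¹ * r ∈ Cu z := by
    rw [mem_cu]
    have h4 : r * z = q * z * q⁻¹ * r := by
      calc r * z = r * z * r⁻¹ * r := by group
        _ = q * z * q⁻¹ * r := by rw [h2, h]
    calc q⁻¹ * r * z = q⁻¹ * (r * z) := by group
      _ = q⁻¹ * (q * z * q⁻¹ * r) := by rw [h4]
      _ = z * (q⁻¹ * r) := by group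
  have h5 := hb.inv h3
  have h6 := congrArg (cj q) h5
  rw [cj_cj, mul_inv_cancel_left] at h6
  exact h6

omit [Finite G] in
theorem sb_zero {b : G → G → F} {z u : G} (h : ¬ ∃ q : G, q * z * q⁻¹ = u) :
    sb b z u = 0 := by
  unfold sb
  rw [dif_neg h]

theorem ix_zero (X : Subgroup G) : Ix X (0 : G → F) := by
  refine ⟨fun _ _ => rfl, fun _ _ => rfl, ?_⟩
  exact mulF_zero_right _

theorem sb_ix {b : G → G → F} {z : G} (hb : Ix (Cu z) (b z)) (u : G) :
    Ix (Cu u) (sb b z u) := by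
  by_cases h : ∃ q : G, q * z * q⁻¹ = u
  · obtain ⟨q, hq⟩ := h
    rw [sb_eq hb hq]
    exact T3.H62.ix_cj (mem_cu_conj hq) hb
  · rw [sb_zero h]
    exact ix_zero _

theorem sb_cj {b : G → G → F} {z : G} (hb : Ix (Cu z) (b z)) (g u : G) :
    sb b z (g * u * g⁻¹) = cj g (sb b z u) := by
  by_cases h : ∃ q : G, q * z * q⁻¹ = u
  · obtain ⟨q, hq⟩ := h
    have h1 : (g * q) * z * (g * q)⁻¹ = g * u * g⁻¹ := by
      rw [← hq]
      group
    rw [sb_eq hb hq, sb_eq hb h1, cj_cj]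
  · have h1 : ¬ ∃ q : G, q * z * q⁻¹ = g * u * g⁻¹ := by
      rintro ⟨q, hq⟩
      apply h
      refine ⟨g⁻¹ * q, ?_⟩
      calc g⁻¹ * q * z * (g⁻¹ * q)⁻¹ = g⁻¹ * (q * z * q⁻¹) * g := by group
        _ = g⁻¹ * (g * u * g⁻¹) * g := by rw [hq]
        _ = u := by group
    rw [sb_zero h, sb_zero h1]
    rfl

end sbe

theorem sbe : SbeStmt := by
  intro ℓ _ M _ hM G _ _ e V Z γ b hZ
  have hb : ∀ z ∈ Z, Ix (Cu z) (b z) := fun z hz => (hZ.lb z hz).1.bx.ix
  refine ⟨⟨fun k u => sb_ix (hb k k.2) u, fun k g u => sb_cj (hb k k.2) g u⟩, ?_⟩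
  intro z hz q
  exact sb_eq (hb z hz) rfl

end Pool.Agent.PP.T10.H1
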