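import Pool.Agent.AT10.Stmts2
import Pool.Agent.Helper32_AT5.ZIM
import Pool.Agent.Helper56_AT6.APS
import Pool.Agent.Helper66_AT6.Tools
import Pool.Agent.Helper69_AT6.SVV
import Pool.Agent.Helper1_AT10.SBE

/-!
# Squad AT10, row FRB: the inner product of `fg` and `ψ`
-/

open scoped BigOperators

noncomputable section

namespace Pool.Agent.PP.T10.H1

open Pool.Agent.Helper51_AWC Pool.Agent.Helper79_WRA Pool.Agent.PP Pool.Agent.PP.KF
open Pool.Agent.PP.K9 Pool.Agent.PP.K9.H97 Pool.Agent.PP.H75 Pool.Agent.PP.T3 Pool.Agent.PP.T2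
open Pool.Agent.PP.T5 Pool.Agent.PP.TB
open Pool.Agent.PP.T8 (rs pw fv rd Ip Rv)

attribute [local instance] Ideal.Quotient.field

/-- virtual characters composed with a homomorphism -/
theorem zi_comp {A B : Type} [Group A] [Finite A] [Group B] (φ : A →* B) {f : B → ℂ}
    (hf : f ∈ ZI B) : (fun a => f (φ a)) ∈ ZI A := by
  refine AddSubgroup.closure_induction (p := fun f _ => (fun a => f (φ a)) ∈ ZI A)
    (fun χ hχ => ?_) ?_ (fun a b _ _ ha hb => ?_) (fun a _ ha => ?_) hf
  · obtain ⟨n, ρ, _, rfl⟩ := hχ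
    exact T5.H32.char_mem_ZI (ρ.comp φ)
  · exact AddSubgroup.zero_mem _
  · exact AddSubgroup.add_mem _ ha hb
  · exact AddSubgroup.neg_mem _ ha

section cls

variable {G : Type} [Group G] [Fintype G]

/-- the sum over representatives of the classes -/
theorem class_sum (R : Subring ℂ) {f : G → ℂ} (hf : ∀ x y, f (y * x * y⁻¹) = f x)
    (hR : ∀ x, f x ∈ R) :
    (Nat.card G : ℂ)⁻¹ * ∑ s, (Nat.card (Cu s) : ℂ) * f s ∈ R := by
  classical
  let r : G → G := fun s => Quotient.out (ConjClasses.mk s)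
  have hr1 : ∀ s, ConjClasses.mk (r s) = ConjClasses.mk s := fun s => Quotient.out_eq _
  have hr2 : ∀ s t : G, r (t * s * t⁻¹) = r s := by
    intro s t
    have h1 : ConjClasses.mk (t * s * t⁻¹) = ConjClasses.mk s :=
      ConjClasses.mk_eq_mk_iff_isConj.2 (isConj_iff.2 ⟨t⁻¹, by group⟩)
    change Quotient.out (ConjClasses.mk (t * s * t⁻¹)) = Quotient.out (ConjClasses.mk s)
    rw [h1]
  have hcard : ∀ s, (Nat.card (Cu s) : ℂ) = ∑ t, if t * s * t⁻¹ = r s then 1 else 0 := by
    intro s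
    obtain ⟨g, hg⟩ := isConj_iff.1 (ConjClasses.mk_eq_mk_iff_isConj.1 (hr1 s).symm)
    have h1 : ∑ t, (if t * s * t⁻¹ = r s then (1 : ℂ) else 0) =
        ∑ t, if t ∈ Cu s then (1 : ℂ) else 0 := by
      rw [← Equiv.sum_comp (Equiv.mulLeft g)]
      refine Finset.sum_congr rfl fun t _ => ?_
      have h2 : (g * t) * s * (g * t)⁻¹ = r s ↔ t ∈ Cu s := by
        rw [mem_cu, ← hg]
        constructor
        · intro h
          have h3 : t * s * t⁻¹ = s := by
            have h4 := congrArg (fun y => g⁻¹ * y * g) h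
            calc t * s * t⁻¹ = g⁻¹ * (g * t * s * (g * t)⁻¹) * g := by group
              _ = g⁻¹ * (g * s * g⁻¹) * g := h4
              _ = s := by group
          calc t * s = t * s * t⁻¹ * t := by group
            _ = s * t := by rw [h3]
        · intro h
          calc g * t * s * (g * t)⁻¹ = g * (t * s) * t⁻¹ * g⁻¹ := by group
            _ = g * (s * t) * t⁻¹ * g⁻¹ := by rw [h]
            _ = g * s * g⁻¹ := by group
      change (if (g * t) * s * (g * t)⁻¹ = r s then (1 : ℂ) else 0) = _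
      by_cases h3 : t ∈ Cu s
      · rw [if_pos h3, if_pos (h2.2 h3)]
      · rw [if_neg h3, if_neg (fun h => h3 (h2.1 h))]
    rw [h1, Finset.sum_boole, Nat.card_eq_fintype_card, Fintype.card_subtype]
  have hswap : ∑ s, (Nat.card (Cu s) : ℂ) * f s =
      (Nat.card G : ℂ) * ∑ s, if s = r s then f s else 0 := by
    have e1 : ∀ s, (Nat.card (Cu s) : ℂ) * f s = ∑ t, if t * s * t⁻¹ = r s then f s else 0 := by
      intro s
      rw [hcard, Finset.sum_mul]
      refine Finset.sum_congr rfl fun t _ => ?_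
      rw [ite_mul, one_mul, zero_mul]
    rw [Finset.sum_congr rfl fun s _ => e1 s, Finset.sum_comm]
    have e2 : ∀ t : G, ∑ s, (if t * s * t⁻¹ = r s then f s else 0) =
        ∑ s, if s = r s then f s else 0 := by
      intro t
      rw [← Equiv.sum_comp (MulAut.conj t).toEquiv (fun s => if s = r s then f s else 0)]
      refine Finset.sum_congr rfl fun s _ => ?_
      change _ = if t * s * t⁻¹ = r (t * s * t⁻¹) then f (t * s * t⁻¹) else 0
      rw [hr2, hf]
    rw [Finset.sum_congr rfl fun t _ => e2 t, Finset.sum_const, Finset.card_univ, nsmul_eq_mul,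
      Nat.card_eq_fintype_card]
  have hn : (Nat.card G : ℂ) ≠ 0 := by exact_mod_cast Nat.card_pos.ne'
  rw [hswap, ← mul_assoc, inv_mul_cancel₀ hn, one_mul]
  refine Subring.sum_mem _ fun s _ => ?_
  split_ifs
  · exact hR s
  · exact R.zero_mem

end cls

section fu

variable {M : Ideal (integralClosure ℤ ℂ)} [M.IsMaximal] {G : Type} [Group G] [Finite G]
  {ι : Type} [Finite ι]

omit [Finite ι] in
theorem fu_conj {c : ι → ℂ} {β : ι → G → G → FF M} (hβ : Ef M β) {χ : G → ℂ}
    (hχ : ∀ x y, χ (y * x * y⁻¹) = χ x) (t u s : G) :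
    fu M c β χ (t * u * t⁻¹) (t * s * t⁻¹) = fu M c β χ u s := by
  unfold fu
  refine finsum_congr fun k => ?_
  have h1 : t * u * t⁻¹ * (t * s * t⁻¹) = t * (u * s) * t⁻¹ := by group
  rw [h1, hβ.eq, T6.H69.gv_cj (hβ.ix k u) hχ]

theorem fu_mem {c : ι → ℂ} {β : ι → G → G → FF M} (hβ : Ef M β) (hc : ∀ k, c k ∈ RM M)
    {χ : G → ℂ} (hχ : χ ∈ Irr G) (u s : G) : fu M c β χ u s ∈ RM M := by
  have := Fintype.ofFinite ι
  unfold fu
  rw [finsum_eq_sum_of_fintype]
  refine Subring.sum_mem _ fun k _ => (RM M).mul_mem (hc k) ?_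
  rw [T6.H66.gv_eq_fv]
  exact T6.H56.fv_RM (fun x => T6.H66.hat_mem (hβ.ix k u) x)
    (fun x => RM_of_int (irr_integral hχ x)) _

end fu

theorem frb (frg : FrgStmt) (sps : SpsStmt) : FrbStmt := by
  intro ℓ _ M _ hM G _ _ ι _ c β hβ hc χ hχ hH ψ hψ
  classical
  have := Fintype.ofFinite G
  have hcχ : ∀ x y, χ (y * x * y⁻¹) = χ x := irr_conj hχ
  have hcψ : ∀ x y, ψ (y * x * y⁻¹) = ψ x := irr_conj hψ
  -- the function of two variables
  let F : G → G → ℂ := fun u s => fu M c β χ u s * starRingEnd ℂ (ψ (u * s))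
  have hFc : ∀ t u s : G, F (t * u * t⁻¹) (t * s * t⁻¹) = F u s := by
    intro t u s
    change fu M c β χ (t * u * t⁻¹) (t * s * t⁻¹) *
      starRingEnd ℂ (ψ (t * u * t⁻¹ * (t * s * t⁻¹))) = _
    have h1 : t * u * t⁻¹ * (t * s * t⁻¹) = t * (u * s) * t⁻¹ := by group
    rw [fu_conj hβ hcχ, h1, hcψ]
  have hFm : ∀ u s : G, F u s ∈ RM M := by
    intro u s
    refine (RM M).mul_mem (fu_mem hβ hc hχ u s) ?_
    rw [Pool.Agent.PP.H94.irr_star hψ]
    exact RM_of_int (irr_integral hψ _)
  -- the inner sums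
  let X : G → ℂ := fun s => ∑ u, if El ℓ u ∧ u ∈ Cu s ∧ Reg ℓ s then F u s else 0
  have hXm : ∀ s, (Nat.card (Cu s) : ℂ)⁻¹ * X s ∈ RM M := by
    intro s
    by_cases hs : Reg ℓ s
    · have P : Sylow ℓ (Cu s) := default
      have h1 := frg ℓ M hM (Cu s) P (fun u => F (u : G) s) (fun x y => ?_)
        (fun x => hFm _ _) (fun κ hκ => ?_)
      · have h2 : ∑ᶠ (u : Cu s) (_ : El ℓ u), F (u : G) s = X s := by
          have h3 : ∀ u : Cu s, (∑ᶠ (_ : El ℓ u), F (u : G) s) =
              if El ℓ (u : G) then F (u : G) s else 0 := by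
            intro u
            have h4 : El ℓ u ↔ El ℓ (u : G) := by
              constructor
              · rintro ⟨n, hn⟩
                exact ⟨n, congrArg Subtype.val hn⟩
              · rintro ⟨n, hn⟩
                exact ⟨n, Subtype.ext hn⟩
            by_cases h5 : El ℓ (u : G)
            · rw [if_pos h5, finsum_eq_if, if_pos (h4.2 h5)]
            · rw [if_neg h5, finsum_eq_if, if_neg (fun h => h5 (h4.1 h))]
          rw [finsum_congr h3, finsum_eq_sum_of_fintype]
          change _ = ∑ u, if El ℓ u ∧ u ∈ Cu s ∧ Reg ℓ s then F u s else 0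
          have h6 : ∀ u : G, (if El ℓ u ∧ u ∈ Cu s ∧ Reg ℓ s then F u s else 0) =
              if u ∈ Cu s then (if El ℓ u then F u s else 0) else 0 := by
            intro u
            by_cases h7 : u ∈ Cu s
            · by_cases h8 : El ℓ u
              · rw [if_pos ⟨h8, h7, hs⟩, if_pos h7, if_pos h8]
              · rw [if_neg (fun h => h8 h.1), if_pos h7, if_neg h8]
            · rw [if_neg (fun h => h7 h.2.1), if_neg h7]
          have h9 : (∑ u : G, if u ∈ Cu s then (if El ℓ u then F u s else 0) else 0) =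
              ∑ u ∈ Finset.univ.filter (fun u => u ∈ Cu s), (if El ℓ u then F u s else 0) :=
            (Finset.sum_filter _ _).symm
          rw [Finset.sum_congr rfl fun u _ => h6 u, h9]
          refine Finset.sum_bij (fun (v : Cu s) _ => (v : G)) (fun v _ => ?_)
            (fun v _ w _ h => Subtype.ext h)
            (fun u hu => ⟨⟨u, (Finset.mem_filter.1 hu).2⟩, Finset.mem_univ _, rfl⟩)
            (fun v _ => rfl)
          exact Finset.mem_filter.2 ⟨Finset.mem_univ _, v.2⟩
        rw [← h2]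
        exact h1
      · -- class function
        have h3 := hFc (y : G) (x : G) s
        have h4 : (y : G) * s * (y : G)⁻¹ = s := by
          have := mem_cu.1 y.2
          rw [this]
          group
        rw [h4] at h3
        exact h3
      · -- the hypothesis for the Sylow subgroup
        let e := (P : Subgroup (Cu s)).equivMapOfInjective (Cu s).subtype (Cu s).subtype_injective
        let P' : Subgroup G := (P : Subgroup (Cu s)).map (Cu s).subtype
        have hP' : IsPGroup ℓ P' := P.isPGroup'.map _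
        have hcen : s ∈ Subgroup.centralizer (P' : Set G) := by
          rw [Subgroup.mem_centralizer_iff]
          rintro x hx
          obtain ⟨y, hy, rfl⟩ := hx
          exact mem_cu.1 y.2
        have h3 := sps ℓ M hM G ι c β hβ χ hχ hH ψ hψ P' hP' s hcen hs
          (fun u' : P' => κ ((e.symm u' : (P : Subgroup (Cu s))) : Cu s))
          (zi_comp (((P : Subgroup (Cu s)).subtype).comp e.symm.toMonoidHom) hκ)
        have h4 : Nat.card P' = Nat.card P := Nat.card_congr e.symm.toEquiv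
        have h5 : ∑ᶠ u' : P', (fu M c β χ (u' : G) s * starRingEnd ℂ (ψ ((u' : G) * s))) *
            κ ((e.symm u' : (P : Subgroup (Cu s))) : Cu s) =
            ∑ᶠ u : P, F ((u : Cu s) : G) s * κ (u : Cu s) := by
          rw [← finsum_comp_equiv e.toEquiv]
          refine finsum_congr fun u => ?_
          have h6 : e.symm (e.toEquiv u) = u := e.symm_apply_apply u
          rw [h6]
          rfl
        rw [h4, h5] at h3
        exact h3
    · have h1 : X s = 0 := by
        refine Finset.sum_eq_zero fun u _ => ?_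
        rw [if_neg (fun h => hs h.2.2)]
      rw [h1, mul_zero]
      exact (RM M).zero_mem
  have hXc : ∀ s t : G, X (t * s * t⁻¹) = X s := by
    intro s t
    change (∑ u, if El ℓ u ∧ u ∈ Cu (t * s * t⁻¹) ∧ Reg ℓ (t * s * t⁻¹) then
      F u (t * s * t⁻¹) else 0) = ∑ u, if El ℓ u ∧ u ∈ Cu s ∧ Reg ℓ s then F u s else 0
    rw [← Equiv.sum_comp (MulAut.conj t).toEquiv]
    refine Finset.sum_congr rfl fun u _ => ?_
    change (if El ℓ (t * u * t⁻¹) ∧ t * u * t⁻¹ ∈ Cu (t * s * t⁻¹) ∧ Reg ℓ (t * s * t⁻¹) then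
      F (t * u * t⁻¹) (t * s * t⁻¹) else 0) = _
    have h1 : El ℓ (t * u * t⁻¹) ↔ El ℓ u := by
      refine ⟨fun h => ?_, T6.H69.el_conj⟩
      have h2 := T6.H69.el_conj (t := t⁻¹) h
      have h3 : t⁻¹ * (t * u * t⁻¹) * t⁻¹⁻¹ = u := by group
      rwa [h3] at h2
    have h2 : Reg ℓ (t * s * t⁻¹) ↔ Reg ℓ s := by
      refine ⟨fun h => ?_, T6.H69.reg_conj⟩
      have h2 := T6.H69.reg_conj (t := t⁻¹) h
      have h3 : t⁻¹ * (t * s * t⁻¹) * t⁻¹⁻¹ = s := by group
      rwa [h3] at h2
    have h3 : t * u * t⁻¹ ∈ Cu (t * s * t⁻¹) ↔ u ∈ Cu s := by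
      rw [mem_cu_conj (z := s) (q := t) rfl]
      have h4 : t⁻¹ * (t * u * t⁻¹) * t = u := by group
      rw [h4]
    rw [h1, h2, h3, hFc]
  have hCc : ∀ s t : G, Nat.card (Cu (t * s * t⁻¹)) = Nat.card (Cu s) := by
    intro s t
    exact Nat.card_congr (T3.H62.cjE (u := t * s * t⁻¹) (u' := s) (x := t) rfl).symm.toEquiv
  -- the total sum
  have hS : ∑ᶠ g : G, fg M ℓ c β χ g * starRingEnd ℂ (ψ g) = ∑ s, X s := by
    rw [finsum_eq_sum_of_fintype]
    have e1 : ∀ g : G, fg M ℓ c β χ g * starRingEnd ℂ (ψ g) =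
        ∑ u, if Lp ℓ g u then F u (u⁻¹ * g) else 0 := by
      intro g
      unfold fg
      rw [finsum_eq_sum_of_fintype, Finset.sum_mul]
      refine Finset.sum_congr rfl fun u _ => ?_
      rw [finsum_eq_if, ite_mul, zero_mul]
      have h1 : F u (u⁻¹ * g) = fu M c β χ u (u⁻¹ * g) * starRingEnd ℂ (ψ g) := by
        change fu M c β χ u (u⁻¹ * g) * starRingEnd ℂ (ψ (u * (u⁻¹ * g))) = _
        rw [mul_inv_cancel_left]
      rw [h1]
    rw [Finset.sum_congr rfl fun g _ => e1 g, Finset.sum_comm]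
    have e2 : ∀ u : G, ∑ g, (if Lp ℓ g u then F u (u⁻¹ * g) else 0) =
        ∑ s, if El ℓ u ∧ u ∈ Cu s ∧ Reg ℓ s then F u s else 0 := by
      intro u
      rw [← Equiv.sum_comp (Equiv.mulLeft u)]
      refine Finset.sum_congr rfl fun s _ => ?_
      change (if Lp ℓ (u * s) u then F u (u⁻¹ * (u * s)) else 0) = _
      rw [inv_mul_cancel_left]
      have h1 : Lp ℓ (u * s) u ↔ El ℓ u ∧ u ∈ Cu s ∧ Reg ℓ s := by
        constructor
        · intro h
          refine ⟨h.el, ?_, ?_⟩
          · rw [mem_cu]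
            have h2 : u * (u * s) = u * s * u := h.com
            have h3 := congrArg (fun y => u⁻¹ * y) h2
            calc u * s = u⁻¹ * (u * (u * s)) := by group
              _ = u⁻¹ * (u * s * u) := h3
              _ = s * u := by group
          · have h2 := h.reg
            rwa [inv_mul_cancel_left] at h2
        · rintro ⟨h2, h3, h4⟩
          refine ⟨h2, ?_, ?_⟩
          · change u * (u * s) = u * s * u
            rw [mem_cu] at h3
            rw [mul_assoc u s u, ← h3]
          · rwa [inv_mul_cancel_left]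
      by_cases h2 : Lp ℓ (u * s) u
      · rw [if_pos h2, if_pos (h1.1 h2)]
      · rw [if_neg h2, if_neg (fun h => h2 (h1.2 h))]
    rw [Finset.sum_congr rfl fun u _ => e2 u, Finset.sum_comm]
  rw [hS]
  have h1 := class_sum (RM M) (f := fun s => (Nat.card (Cu s) : ℂ)⁻¹ * X s)
    (fun s t => by simp only [hXc, hCc]) hXm
  have h2 : ∑ s, (Nat.card (Cu s) : ℂ) * ((Nat.card (Cu s) : ℂ)⁻¹ * X s) = ∑ s, X s := by
    refine Finset.sum_congr rfl fun s _ => ?_
    have hn : (Nat.card (Cu s) : ℂ) ≠ 0 := by exact_mod_cast Nat.card_pos.ne'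
    rw [← mul_assoc, mul_inv_cancel₀ hn, one_mul]
  rw [h2] at h1
  exact h1

end Pool.Agent.PP.T10.H1
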